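import Mathlib
import Pool.Agent.DSepSquare.Defs
import Pool.Agent.DSepSquare.Proof

open Set Topology Pool.Agent.DSepSquare

namespace Pool.Agent.Results.MP_4cef1b_gt.SquareDSeparable

/-- **Main result.** There is (in ZFC) a Hausdorff space with a base of clopen sets which is not
d-separable although its square is D-separable. -/
theorem result : ∃ (X : Type) (_ : TopologicalSpace X), T2Space X ∧
    TopologicalSpace.IsTopologicalBasis {s : Set X | IsClopen s} ∧
    ¬ IsLowercaseDSeparable X ∧ IsUppercaseDSeparable (X × X) := by
  obtain ⟨K, W, _, _, Φ, H⟩ := exists_params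
  exact ⟨Cond Φ, coneTop (Cond Φ), t2_cone, clopen_basis_cone,
    not_little (cond_H1 H) (cond_H2 H), big_sq (cond_H1 H) (cond_H3 H)⟩

end Pool.Agent.Results.MP_4cef1b_gt.SquareDSeparable
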